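import Mathlib
import Pool.Agent.Q89.Br3

set_option autoImplicit false

/-!
# An infinite-index branch subgroup which lies in no maximal subgroup of infinite index

`K` is the group of automorphisms of the 5-regular rooted tree generated by the rooted
automorphisms `a` and the directed automorphisms `b y a = (b y a, 1, .., a, .., 1)`
(`a ∈ A₅` at the letter `y ≠ 0`); `K = K ≀ A₅`.  `G = K ⋊ ⟨g⟩`, where `g` applies
`(1 2)(3 4)` to every letter of a word.  `H` is a maximal subgroup of `K` which contains the
finitary elements of `K` and all `b 1 a`, `b 3 a`.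
-/

namespace Pool.Agent.Results.MP_9e467c_al.NoInfiniteIndexMaximal

/-- Adjacency in the rooted tree `T` of all finite words over `{0, ..., 4}`: every word is joined to
its extensions by one letter. -/
def Adj (v w : List (Fin 5)) : Prop := ∃ x : Fin 5, w = v ++ [x] ∨ v = w ++ [x]

/-- `g` is an automorphism of the rooted tree `T`. -/
def IsAut (g : Equiv.Perm (List (Fin 5))) : Prop :=
  g [] = [] ∧ ∀ v w : List (Fin 5), Adj (g v) (g w) ↔ Adj v w

/-- The rigid vertex stabiliser of `v`. -/
def rist (G : Subgroup (Equiv.Perm (List (Fin 5)))) (v : List (Fin 5)) :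
    Set (Equiv.Perm (List (Fin 5))) :=
  {g | g ∈ G ∧ (∀ u : List (Fin 5), u.length = v.length → g u = u) ∧
    ∀ u w : List (Fin 5), u.length = v.length → u ≠ v → g (u ++ w) = u ++ w}

/-- The `n`-th rigid layer stabiliser: the subgroup generated by the rigid stabilisers of the
vertices of layer `n`. -/
def Rist (G : Subgroup (Equiv.Perm (List (Fin 5)))) (n : ℕ) :
    Subgroup (Equiv.Perm (List (Fin 5))) :=
  Subgroup.closure (⋃ v ∈ {v : List (Fin 5) | v.length = n}, rist G v)

/-- `G` is a branch group with respect to its action on `T`: it acts by automorphisms of `T`,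
transitively on every layer, and all its rigid layer stabilisers have finite index
(`relIndex` is the index, with the value `0` for infinite index). -/
def IsBranch (G : Subgroup (Equiv.Perm (List (Fin 5)))) : Prop :=
  (∀ g ∈ G, IsAut g) ∧ (∀ u v : List (Fin 5), u.length = v.length → ∃ g ∈ G, g u = v) ∧
    ∀ n : ℕ, (Rist G n).relIndex G ≠ 0

/-- `M` is a maximal subgroup of `G`. -/
def IsMaximalIn (M G : Subgroup (Equiv.Perm (List (Fin 5)))) : Prop :=
  M < G ∧ ∀ N, M < N → N ≤ G → N = G

open Pool.Agent.Q89.WA5 Pool.Agent.Q89.Br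

lemma adj_of_W {g : P} (hg : g ∈ W) {v w : List (Fin 5)} (h : Adj v w) : Adj (g v) (g w) := by
  obtain ⟨x, rfl | rfl⟩ := h
  · obtain ⟨σ, _, h1⟩ := hg.2 v
    exact ⟨σ x, Or.inl (h1 x)⟩
  · obtain ⟨σ, _, h1⟩ := hg.2 w
    exact ⟨σ x, Or.inr (h1 x)⟩

lemma isAut_of_W {g : P} (hg : g ∈ W) : IsAut g := by
  refine ⟨hg.1, fun v w => ⟨fun h => ?_, adj_of_W hg⟩⟩
  have h1 := adj_of_W (W.inv_mem hg) h
  simpa using h1

lemma length_of_W {g : P} (hg : g ∈ W) (v : List (Fin 5)) : (g v).length = v.length := by
  induction v using List.reverseRecOn with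
  | nil => rw [hg.1]
  | append_singleton v x ih =>
    obtain ⟨σ, _, h1⟩ := hg.2 v
    rw [h1, List.length_append, List.length_append, ih]
    rfl

lemma b_mem_W (y : Fin 5) {a : Equiv.Perm (Fin 5)} (ha : a ∈ A) : b y a ∈ W := by
  have hrt : rt a ∈ W := mk_mem_W ha fun _ => W.one_mem
  refine ⟨rfl, fun v => ?_⟩
  induction v with
  | nil =>
    refine ⟨1, A.one_mem, fun x => ?_⟩
    show bF y a [x] = [] ++ [x]
    by_cases h0 : x = 0
    · subst h0
      simp only [bF, if_true]
      rfl
    · by_cases h1 : x = y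
      · subst h1
        simp only [bF, h0, if_false, if_true]
        rfl
      · simp only [bF, h0, h1, if_false]
        rfl
  | cons z v ih =>
    by_cases h0 : z = 0
    · subst h0
      obtain ⟨σ, hσ, h1⟩ := ih
      refine ⟨σ, hσ, fun x => ?_⟩
      show bF y a (0 :: (v ++ [x])) = bF y a (0 :: v) ++ [σ x]
      simp only [bF, if_true]
      exact congrArg _ (h1 x)
    · by_cases h1 : z = y
      · subst h1
        obtain ⟨σ, hσ, h1⟩ := hrt.2 v
        refine ⟨σ, hσ, fun x => ?_⟩
        show bF z a (z :: (v ++ [x])) = bF z a (z :: v) ++ [σ x]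
        simp only [bF, if_true, h0, if_false]
        exact congrArg _ (h1 x)
      · refine ⟨1, A.one_mem, fun x => ?_⟩
        show bF y a (z :: (v ++ [x])) = bF y a (z :: v) ++ [x]
        simp only [bF, h0, h1, if_false]
        rfl

lemma K_le_W : K ≤ W := by
  apply K_le
  · intro a ha
    exact mk_mem_W ha fun _ => W.one_mem
  · intro y _ a ha
    exact b_mem_W y ha

lemma g_mem_W : g ∈ W := by
  refine ⟨rfl, fun v => ⟨tt, alt_mem _ (by decide), fun x => ?_⟩⟩
  show List.map tt (v ++ [x]) = List.map tt v ++ [tt x]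
  rw [List.map_append]
  rfl

lemma G_le_W : G ≤ W := by
  rintro x (hx | hx)
  · exact K_le_W hx
  · have h := W.mul_mem g_mem_W (K_le_W hx)
    rwa [← mul_assoc, g_g, one_mul] at h

lemma F_trans (n : ℕ) : ∀ u v : List (Fin 5), u.length = n → v.length = n →
    ∃ f ∈ F n, f u = v := by
  induction n with
  | zero =>
    intro u v hu hv
    rw [List.length_eq_zero_iff] at hu hv
    subst hu
    subst hv
    exact ⟨1, (F 0).one_mem, rfl⟩
  | succ n ih =>
    intro u v hu hv
    cases u with
    | nil => simp at hu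
    | cons x u =>
      cases v with
      | nil => simp at hv
      | cons y v =>
        obtain ⟨c, hc, hcx⟩ := exists_even x y
        obtain ⟨f, hf, hfu⟩ := ih u v (by simpa using hu) (by simpa using hv)
        refine ⟨mk c (fun _ => f), mk_mem_wr.2 ⟨hc, fun _ => hf⟩, ?_⟩
        rw [mk_cons, hcx, hfu]

lemma rist_subset {H : Subgroup P} {n : ℕ} {v : List (Fin 5)} (hv : v.length = n) :
    rist H v ⊆ Rist H n := by
  intro h hh
  apply Subgroup.subset_closure
  simp only [Set.mem_iUnion]
  exact ⟨v, hv, hh⟩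

lemma io_Rist {L : Subgroup P} (i : Fin 5) (n : ℕ) {h : P} (hh : h ∈ Rist L n) :
    io i h ∈ Rist (wr L) (n + 1) := by
  have key : Rist L n ≤ (Rist (wr L) (n + 1)).comap (io i) := by
    rw [Rist, Subgroup.closure_le]
    intro k hk
    simp only [Set.mem_iUnion] at hk
    obtain ⟨v, hv, h1, h2, h3⟩ := hk
    have hv' : v.length = n := hv
    apply rist_subset (v := i :: v) (by rw [List.length_cons, hv'])
    refine ⟨io_mem_wr.2 h1, ?_, ?_⟩
    · intro u hu
      cases u with
      | nil => simp at hu
      | cons y u =>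
        rw [io_apply, mk_cons]
        by_cases hy : y = i
        · subst hy
          rw [Pi.mulSingle_eq_same, h2 u (by simpa using hu)]
          rfl
        · rw [Pi.mulSingle_eq_of_ne hy]
          rfl
    · intro u w hu hne
      cases u with
      | nil => simp at hu
      | cons y u =>
        rw [List.cons_append, io_apply, mk_cons]
        by_cases hy : y = i
        · subst hy
          rw [Pi.mulSingle_eq_same, h3 u w (by simpa using hu) (fun e => hne (by rw [e]))]
          rfl
        · rw [Pi.mulSingle_eq_of_ne hy]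
          rfl
  exact key hh

/-- level stabilisers are contained in the rigid level stabilisers -/
lemma st_le_Rist {Cl : Subgroup P → Prop} (hCl : ∀ H, Cl H → ∃ L, Cl L ∧ H = wr L) (n : ℕ) :
    ∀ H, Cl H → ∀ h ∈ H, (∀ v : List (Fin 5), v.length = n → h v = v) → h ∈ Rist H n := by
  induction n with
  | zero =>
    intro H _ h hh hfix
    apply rist_subset (v := []) rfl
    refine ⟨hh, fun u hu => hfix u hu, fun u w hu hne => ?_⟩
    exact absurd (List.length_eq_zero_iff.1 hu) hne
  | succ n ih =>
    intro H hH h hh hfix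
    obtain ⟨L, hL, rfl⟩ := hCl H hH
    obtain ⟨σ, hσ, k, hk, rfl⟩ := hh
    have h1 : ∀ x (v : List (Fin 5)), v.length = n → σ x = x ∧ k x v = v := by
      intro x v hv
      have h2 := hfix (x :: v) (by rw [List.length_cons, hv])
      rw [mk_cons, List.cons.injEq] at h2
      exact h2
    have hσ1 : σ = 1 := by
      ext1 x
      exact (h1 x (List.replicate n 0) (by simp)).1
    subst hσ1
    have h2 : ∀ x, k x ∈ Rist L n := fun x => ih L hL (k x) (hk x) fun v hv => (h1 x v hv).2
    rw [mk1_io]
    have h3 : ∀ i, io i (k i) ∈ Rist (wr L) (n + 1) := fun i => io_Rist i n (h2 i)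
    exact Subgroup.mul_mem _ (Subgroup.mul_mem _ (Subgroup.mul_mem _ (Subgroup.mul_mem _
      (h3 0) (h3 1)) (h3 2)) (h3 3)) (h3 4)

lemma Rist_index {H : Subgroup P} (hW : H ≤ W) (n : ℕ)
    (hst : ∀ h ∈ H, (∀ v : List (Fin 5), v.length = n → h v = v) → h ∈ Rist H n) :
    (Rist H n).relIndex H ≠ 0 := by
  let φ : H →* Equiv.Perm {v : List (Fin 5) // v.length = n} :=
    { toFun := fun h => Equiv.Perm.subtypePerm (h : P)
        (fun v => by rw [length_of_W (hW h.2)])
      map_one' := by ext1 v; rfl
      map_mul' := fun a b => by ext1 v; rfl }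
  have hfin : Finite {v : List (Fin 5) // v.length = n} :=
    (List.finite_length_eq (Fin 5) n).to_subtype
  have h1 : φ.ker.FiniteIndex := inferInstance
  have h2 : φ.ker ≤ (Rist H n).subgroupOf H := by
    intro h hh
    rw [Subgroup.mem_subgroupOf]
    apply hst _ h.2
    intro v hv
    have h3 := MonoidHom.mem_ker.1 hh
    have h4 := congrArg (fun e : Equiv.Perm {v : List (Fin 5) // v.length = n} =>
      (e ⟨v, hv⟩ : List (Fin 5))) h3
    exact h4
  have h3 : ((Rist H n).subgroupOf H).FiniteIndex := Subgroup.finiteIndex_of_le h2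
  exact h3.index_ne_zero

lemma branch_of {Cl : Subgroup P → Prop} (hCl : ∀ H, Cl H → ∃ L, Cl L ∧ H = wr L)
    {H : Subgroup P} (hH : Cl H) (hW : H ≤ W) (hF : ∀ n, F n ≤ H) : IsBranch H :=
  ⟨fun _ hg => isAut_of_W (hW hg),
    fun u v huv => by
      obtain ⟨f, hf, h1⟩ := F_trans u.length u v rfl huv.symm
      exact ⟨f, hF _ hf, h1⟩,
    fun n => Rist_index hW n (st_le_Rist hCl n H hH)⟩

lemma branch_K : IsBranch K :=
  branch_of (Cl := fun H => H = K) (fun H hH => ⟨K, rfl, by rw [hH, wr_K]⟩) rfl K_le_W F_le_K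

lemma branch_good {H : Subgroup P} (hH : Good H) : IsBranch H :=
  branch_of (Cl := Good) (fun _ h => good_wr h) hH (hH.1.1.le.trans K_le_W) hH.2

lemma branch_G : IsBranch G := by
  refine ⟨fun _ hg => isAut_of_W (G_le_W hg), fun u v huv => ?_, fun n hn => ?_⟩
  · obtain ⟨f, hf, h1⟩ := branch_K.2.1 u v huv
    exact ⟨f, K_le_G hf, h1⟩
  · have h1 : Rist K n ≤ Rist G n := by
      apply Subgroup.closure_mono
      intro k hk
      simp only [Set.mem_iUnion] at hk ⊢
      obtain ⟨v, hv, h2, h3⟩ := hk
      exact ⟨v, hv, K_le_G h2, h3⟩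
    have h2 := Subgroup.relIndex_ne_zero_trans (branch_K.2.2 n) K_index
    exact h2 (Subgroup.relIndex_eq_zero_of_le_left h1 hn)

/-- There are a finitely generated branch group `G ≤ Aut(T)` and a branch subgroup `H` of `G` of
infinite index such that every maximal subgroup of `G` containing `H` has finite index in `G`. -/
theorem result : ∃ G H : Subgroup (Equiv.Perm (List (Fin 5))), G.FG ∧ IsBranch G ∧
    IsBranch H ∧ H ≤ G ∧ H.relIndex G = 0 ∧
    ∀ M : Subgroup (Equiv.Perm (List (Fin 5))), H ≤ M → IsMaximalIn M G → M.relIndex G ≠ 0 := by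
  obtain ⟨H, hH, hC⟩ := exists_good
  refine ⟨G, H, G_fg, branch_G, branch_good hH, hH.1.1.le.trans K_le_G, ?_, ?_⟩
  · exact Subgroup.relIndex_eq_zero_of_le_right K_le_G (good_index hH)
  · intro M hM hMG h0
    have h1 := max_above hH hC M hM hMG.1 hMG.2
    exact K_index (Subgroup.relIndex_eq_zero_of_le_left h1 h0)

end Pool.Agent.Results.MP_9e467c_al.NoInfiniteIndexMaximal
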